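import Mathlib

namespace Pool.Agent.Results.MP_cbccc2_co.Torus

open Finset Matrix ComplexConjugate
open scoped ComplexOrder

section defs
variable {V W : Type} [Fintype V]

/-- Magnetic potential (values off the edges are irrelevant). -/
def IsPot (G : SimpleGraph V) (σ : V → V → ℂ) : Prop :=
  ∀ x y, G.Adj x y → ‖σ x y‖ = 1 ∧ σ y x = conj (σ x y)

open Classical in
/-- Magnetic Laplacian. -/
noncomputable def lap (G : SimpleGraph V) (σ : V → V → ℂ) (f : V → ℂ) (x : V) : ℂ :=
  ∑ y, if G.Adj x y then f x - σ x y * f y else 0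

def Eig (G : SimpleGraph V) (σ : V → V → ℂ) : Set ℝ :=
  {μ | ∃ f : V → ℂ, f ≠ 0 ∧ ∀ x, lap G σ f x = μ * f x}

/-- Smallest eigenvalue. -/
noncomputable def lam1 (G : SimpleGraph V) (σ : V → V → ℂ) : ℝ := sInf (Eig G σ)

/-- Magneto-spectral height. -/
noncomputable def nu (G : SimpleGraph V) : ℝ := sSup {l | ∃ σ, IsPot G σ ∧ l = lam1 G σ}

def IsLift (H : SimpleGraph W) (G : SimpleGraph V) (p : W → V) : Prop :=
  (∀ x y, H.Adj x y → G.Adj (p x) (p y)) ∧ Function.Surjective p ∧
    ∀ x, Set.BijOn p (H.neighborSet x) (G.neighborSet (p x))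

theorem test (G : SimpleGraph V) (σ : V → V → ℂ) (hσ : IsPot G σ) (c : ℝ) (f : V → ℂ)
    (hf : f ≠ 0) (h : (∑ x, conj (f x) * (lap G σ f x - c * f x)).re ≤ 0) :
    ∃ μ ∈ Eig G σ, μ ≤ c := by
  classical
  let N : Matrix V V ℂ := fun x y =>
    (if x = y then (((∑ z, if G.Adj x z then 1 else 0 : ℝ) - c : ℝ) : ℂ) else 0) -
      if G.Adj x y then σ x y else 0
  have hN : ∀ g x, (N *ᵥ g) x = lap G σ g x - c * g x := by
    intro g x
    have : lap G σ g x = ∑ y, ((if G.Adj x y then 1 else 0) * g x -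
        (if G.Adj x y then σ x y else 0) * g y) := by
      unfold lap
      refine Finset.sum_congr rfl fun y _ => ?_
      split_ifs <;> simp
    rw [this]
    simp only [mulVec, dotProduct, N, sub_mul, sum_sub_distrib, ite_mul, zero_mul, sum_ite_eq,
      mem_univ, if_true, ← Finset.sum_mul]
    push_cast
    simp only [apply_ite Complex.ofReal, Complex.ofReal_one, Complex.ofReal_zero, sub_mul, Finset.sum_mul, ite_mul, zero_mul]
    ring
  have hH : N.IsHermitian := by
    ext x y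
    simp only [conjTranspose_apply, N, star_sub]
    congr 1
    · by_cases hxy : x = y
      · subst hxy; simp only [if_true]; exact Complex.conj_ofReal _
      · simp [hxy, Ne.symm hxy]
    · by_cases hxy : G.Adj x y
      · simp [hxy, hxy.symm, (hσ x y hxy).2]
      · simp [hxy, mt (G.adj_comm y x).1 hxy]
  have hnp : ¬ N.PosDef := by
    intro hp
    have h1 := hp.dotProduct_mulVec_pos hf
    have h2 : star f ⬝ᵥ N *ᵥ f = ∑ x, conj (f x) * (lap G σ f x - c * f x) := by
      simp only [dotProduct, hN]; rfl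
    rw [h2, Complex.pos_iff] at h1
    linarith [h1.1]
  rw [hH.posDef_iff_eigenvalues_pos] at hnp
  push Not at hnp
  obtain ⟨i, hi⟩ := hnp
  refine ⟨hH.eigenvalues i + c, ⟨(hH.eigenvectorBasis i).ofLp, ?_, fun x => ?_⟩, by linarith⟩
  · intro h0
    exact (hH.eigenvectorBasis).orthonormal.ne_zero i (by ext x; exact congrFun h0 x)
  · have h1 := congrFun (hH.mulVec_eigenvectorBasis i) x
    rw [hN] at h1
    simp only [Pi.smul_apply, Complex.real_smul] at h1
    push_cast
    linear_combination h1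

theorem lam1_le {G : SimpleGraph V} {σ : V → V → ℂ} {c : ℝ} (hc : 0 ≤ c)
    (h : ∃ μ ∈ Eig G σ, μ ≤ c) : lam1 G σ ≤ c := by
  obtain ⟨μ, h1, h2⟩ := h
  by_cases hb : BddBelow (Eig G σ)
  · exact (csInf_le hb h1).trans h2
  · rw [lam1, Real.sInf_of_not_bddBelow hb]; exact hc
end defs

section torus
variable {n : ℕ} [NeZero n]

/-- Vertex `x` of the `n`-vertex torus lies in the triangle `{i, i+1, i+3}` or `{i, i+2, i+3}`. -/
def inc (x : Fin n) (t : Fin n × Bool) : Prop :=
  x = t.1 ∨ x = t.1 + 3 ∨ x = t.1 + (if t.2 then 2 else 1)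

instance (x : Fin n) (t : Fin n × Bool) : Decidable (inc x t) := by unfold inc; infer_instance

abbrev Vt (n : ℕ) := Fin n ⊕ Fin n × Bool

def adj : Vt n → Vt n → Prop
  | .inl x, .inr t => inc x t
  | .inr t, .inl x => inc x t
  | _, _ => False

instance : DecidableRel (adj (n := n)) := fun a b => by
  cases a <;> cases b <;> unfold adj <;> infer_instance

/-- Vertex-triangle incidence graph. -/
def T (n : ℕ) [NeZero n] : SimpleGraph (Vt n) where
  Adj := adj
  symm := ⟨fun a b h => by cases a <;> cases b <;> exact h⟩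
  loopless := ⟨fun a h => by cases a <;> exact h⟩

instance : DecidableRel (T n).Adj := inferInstanceAs (DecidableRel adj)

def bb (σ : Vt n → Vt n → ℂ) (x : Fin n) (t : Fin n × Bool) : ℂ :=
  if inc x t then σ (.inl x) (.inr t) else 0

noncomputable def SS (σ : Vt n → Vt n → ℂ) (x z : Fin n) : ℂ := ∑ t, bb σ x t * conj (bb σ z t)

def Deg (n : ℕ) [NeZero n] : Prop :=
  (∀ x : Fin n, (∑ t, if inc x t then 1 else 0 : ℕ) = 6) ∧
    ∀ t, (∑ x : Fin n, if inc x t then 1 else 0 : ℕ) = 3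

variable {σ : Vt n → Vt n → ℂ}

theorem lap_l (hd : Deg n) (f : Vt n → ℂ) (x : Fin n) :
    lap (T n) σ f (.inl x) = 6 * f (.inl x) - ∑ t, bb σ x t * f (.inr t) := by
  have h6 : (∑ t, if inc x t then 1 else 0 : ℂ) = 6 := by exact_mod_cast hd.1 x
  have e1 : ∀ y, ¬ (T n).Adj (.inl x) (.inl y) := fun y h => h
  have e2 : ∀ t, (T n).Adj (.inl x) (.inr t) ↔ inc x t := fun t => Iff.rfl
  rw [← h6, Finset.sum_mul, ← Finset.sum_sub_distrib, lap, Fintype.sum_sum_type]
  simp only [e1, e2, if_false, sum_const_zero, zero_add]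
  refine Finset.sum_congr rfl fun t _ => ?_
  by_cases h : inc x t <;> simp [bb, h]

theorem lap_r (hd : Deg n) (hσ : IsPot (T n) σ) (f : Vt n → ℂ) (t : Fin n × Bool) :
    lap (T n) σ f (.inr t) = 3 * f (.inr t) - ∑ x, conj (bb σ x t) * f (.inl x) := by
  have h3 : (∑ x, if inc x t then 1 else 0 : ℂ) = 3 := by exact_mod_cast hd.2 t
  have e1 : ∀ y, ¬ (T n).Adj (.inr t) (.inr y) := fun y h => h
  have e2 : ∀ x, (T n).Adj (.inr t) (.inl x) ↔ inc x t := fun t => Iff.rfl
  rw [← h3, Finset.sum_mul, ← Finset.sum_sub_distrib, lap, Fintype.sum_sum_type]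
  simp only [e1, e2, if_false, sum_const_zero, add_zero]
  refine Finset.sum_congr rfl fun x _ => ?_
  by_cases h : inc x t
  · simp [bb, h, (hσ (.inl x) (.inr t) h).2]
  · simp [bb, h]

theorem unit {z : ℂ} (h : ‖z‖ = 1) : z * conj z = 1 := by
  rw [Complex.mul_conj, Complex.normSq_eq_norm_sq, h]; simp

theorem SS_diag (hd : Deg n) (hσ : IsPot (T n) σ) (x : Fin n) : SS σ x x = 6 := by
  have h6 : (∑ t, if inc x t then 1 else 0 : ℂ) = 6 := by exact_mod_cast hd.1 x
  rw [← h6, SS]
  refine Finset.sum_congr rfl fun t _ => ?_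
  by_cases h : inc x t
  · rw [bb, if_pos h, if_pos h, unit (hσ (.inl x) (.inr t) h).1]
  · rw [bb, if_neg h, if_neg h]; simp

theorem dbl (g : Fin n → ℂ) (x : Fin n) :
    ∑ t, bb σ x t * ∑ z, conj (bb σ z t) * g z = ∑ z, SS σ x z * g z := by
  simp only [SS, Finset.mul_sum, Finset.sum_mul, mul_assoc]
  exact Finset.sum_comm

theorem lower (hd : Deg n) (hσ : IsPot (T n) σ) (h0 : ∀ x z, x ≠ z → SS σ x z = 0)
    {μ : ℝ} (h : μ ∈ Eig (T n) σ) : 13 / 8 ≤ μ := by
  obtain ⟨f, hf, he⟩ := h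
  have hr : ∀ t, (3 - μ) * f (.inr t) = ∑ x, conj (bb σ x t) * f (.inl x) := fun t => by
    have := he (.inr t); rw [lap_r hd hσ] at this; linear_combination this
  have hl : ∀ x, (((6 - μ) * (3 - μ) - 6 : ℝ) : ℂ) * f (.inl x) = 0 := fun x => by
    have h1 := he (.inl x)
    rw [lap_l hd] at h1
    have h2 := dbl (σ := σ) (fun z => f (.inl z)) x
    rw [Finset.sum_eq_single x (fun z _ hz => by rw [h0 x z hz.symm, zero_mul]) (by simp),
      SS_diag hd hσ] at h2
    simp only [← hr, mul_left_comm _ (3 - (μ : ℂ)), ← Finset.mul_sum] at h2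
    push_cast
    linear_combination (3 - (μ : ℂ)) * h1 + h2
  by_contra hc
  push Not at hc
  have h1 : ∀ x, f (.inl x) = 0 := fun x =>
    (mul_eq_zero.1 (hl x)).resolve_left (Complex.ofReal_ne_zero.2 (by nlinarith))
  have h3 : (3 - μ : ℂ) ≠ 0 := by
    have : ((3 - μ : ℝ) : ℂ) ≠ 0 := Complex.ofReal_ne_zero.2 (by linarith)
    exact_mod_cast this
  apply hf
  funext v
  rcases v with x | t
  · exact h1 x
  · have := hr t
    simp only [h1, mul_zero, Finset.sum_const_zero] at this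
    exact (mul_eq_zero.1 this).resolve_left h3

theorem upper (hd : Deg n) (hσ : IsPot (T n) σ) (x y : Fin n) (hxy : x ≠ y)
    (h : 111 / 2500 ≤ ‖SS σ x y‖) : ∃ μ ∈ Eig (T n) σ, μ ≤ 81 / 50 := by
  set a := SS σ x y with ha
  set r := ‖a‖ with hr
  let g : Fin n → ℂ := fun z => if z = x then a else if z = y then r else 0
  have gs : ∀ F : Fin n → ℂ → ℂ, (∀ z, F z 0 = 0) → ∑ z, F z (g z) = F x a + F y r := by
    intro F hF
    rw [Fintype.sum_eq_add x y hxy fun z hz => by simp only [g, if_neg hz.1, if_neg hz.2, hF]]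
    simp [g, hxy.symm]
  let f : Vt n → ℂ := Sum.elim (fun z => 69 / 50 * g z) fun t => ∑ z, conj (bb σ z t) * g z
  refine test _ σ hσ _ f (fun h0 => ?_) ?_
  · have := congrFun h0 (.inl y)
    simp [f, g, hxy.symm] at this
    linarith
  · have h1 : SS σ y x = conj a := by simp [ha, SS, mul_comm]
    have h2 : a * conj a = (r : ℂ) ^ 2 := by
      rw [Complex.mul_conj, Complex.normSq_eq_norm_sq]; simp [hr]
    have hS : ∀ w, ∑ z, SS σ w z * g z = SS σ w x * a + SS σ w y * r := fun w =>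
      gs (fun z v => SS σ w z * v) (by simp)
    have : ∑ v, conj (f v) * (lap (T n) σ f v - (81 / 50 : ℝ) * f v) =
        ((69 / 25 * r ^ 2 * (111 / 2500 - r) : ℝ) : ℂ) := by
      rw [Fintype.sum_sum_type, Finset.sum_eq_zero (s := univ) (f := fun t : Fin n × Bool => _)]
      · simp only [lap_l hd, f, Sum.elim_inl, Sum.elim_inr, dbl, hS]
        rw [gs (fun z v => conj (69 / 50 * v) *
          (6 * (69 / 50 * v) - (SS σ z x * a + SS σ z y * r) - (81 / 50 : ℝ) * (69 / 50 * v)))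
          (by simp)]
        simp only [SS_diag hd hσ, h1, ← ha, map_mul, Complex.conj_ofReal, map_div₀, map_ofNat]
        push_cast
        linear_combination (69 / 50 * (111 / 2500) - 69 / 25 * (r : ℂ)) * h2
      · intro t _
        simp only [lap_r hd hσ, f, Sum.elim_inl, Sum.elim_inr, mul_left_comm _ (69 / 50 : ℂ),
          ← Finset.mul_sum]
        push_cast
        ring
    rw [this, Complex.ofReal_re]
    exact mul_nonpos_of_nonneg_of_nonpos (by positivity) (by linarith)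

theorem two (x y : Fin n) (t1 t2 : Fin n × Bool)
    (h : t1 ≠ t2 ∧ inc x t1 ∧ inc y t1 ∧ inc x t2 ∧ inc y t2 ∧
      ∀ t, t ≠ t1 ∧ t ≠ t2 → ¬ inc x t ∨ ¬ inc y t) :
    SS σ x y = σ (.inl x) (.inr t1) * conj (σ (.inl y) (.inr t1)) +
      σ (.inl x) (.inr t2) * conj (σ (.inl y) (.inr t2)) := by
  obtain ⟨h0, h1, h2, h3, h4, h5⟩ := h
  rw [SS, Fintype.sum_eq_add t1 t2 h0 fun t ht => by rcases h5 t ht with h | h <;> simp [bb, h]]
  simp [bb, h1, h2, h3, h4]
end torus

theorem prod_sub {ι : Type} (z : ι → ℂ) (hz : ∀ i, ‖z i‖ = 1) (s : Finset ι) :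
    ‖∏ i ∈ s, z i - 1‖ ≤ ∑ i ∈ s, ‖z i - 1‖ := by
  classical
  induction s using Finset.induction_on with
  | empty => simp
  | insert a s ha ih =>
    rw [prod_insert ha, sum_insert ha]
    have : z a * ∏ i ∈ s, z i - 1 = (z a - 1) + z a * (∏ i ∈ s, z i - 1) := by ring
    rw [this]
    refine (norm_add_le _ _).trans ?_
    rw [norm_mul, hz, one_mul]; linarith

theorem big {σ : Vt 7 → Vt 7 → ℂ} (hσ : IsPot (T 7) σ) :
    ∃ x y, x ≠ y ∧ 111 / 2500 ≤ ‖SS σ x y‖ := by
  by_contra hc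
  push Not at hc
  let P : Fin 7 × Bool → Fin 7 → Fin 7 → ℂ := fun t x y =>
    σ (.inl x) (.inr t) * conj (σ (.inl y) (.inr t))
  have hP : ∀ t x y, inc x t ∧ inc y t → ‖P t x y‖ = 1 := fun t x y h => by
    simp [P, (hσ (.inl x) (.inr t) h.1).1, (hσ (.inl y) (.inr t) h.2).1]
  have hT : ∀ t x y z, inc x t ∧ inc y t ∧ inc z t → P t x y * P t y z * P t z x = 1 := by
    intro t x y z h
    have e1 := unit (hσ (.inl x) (.inr t) h.1).1
    have e2 := unit (hσ (.inl y) (.inr t) h.2.1).1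
    have e3 := unit (hσ (.inl z) (.inr t) h.2.2).1
    simp only [P]
    have e4 := congrArg₂ (· * ·) (congrArg₂ (· * ·) e1 e2) e3
    linear_combination e4
  let a1 : Fin 7 → ℂ := fun j => P (j, false) j (j + 1)
  let a2 : Fin 7 → ℂ := fun j => P (j, false) (j + 1) (j + 3)
  let a3 : Fin 7 → ℂ := fun j => P (j, false) (j + 3) j
  let z : Fin 7 → ℂ := fun j => -(a2 (j + 6) * a1 (j + 2) * a3 j)
  have n1 : ∀ j, ‖a1 j‖ = 1 := fun j => hP _ _ _ (by clear * -; revert j; decide)
  have n2 : ∀ j, ‖a2 j‖ = 1 := fun j => hP _ _ _ (by clear * -; revert j; decide)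
  have n3 : ∀ j, ‖a3 j‖ = 1 := fun j => hP _ _ _ (by clear * -; revert j; decide)
  have hz : ∀ j, ‖z j - 1‖ ≤ 3 * (111 / 2500) := by
    intro j
    have c := hT (j, true) j (j + 2) (j + 3) (by clear * -; revert j; decide)
    have m1 := hP (j, true) j (j + 2) (by clear * -; revert j; decide)
    have m2 := hP (j, true) (j + 2) (j + 3) (by clear * -; revert j; decide)
    have i1 : j + 6 + 1 = j := by clear * -; revert j; decide
    have i2 : j + 6 + 3 = j + 2 := by clear * -; revert j; decide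
    have i3 : j + 2 + 1 = j + 3 := by clear * -; revert j; decide
    have k1 := hc j (j + 2) (by clear * -; revert j; decide)
    have k2 := hc (j + 2) (j + 3) (by clear * -; revert j; decide)
    have k3 := hc (j + 3) j (by clear * -; revert j; decide)
    rw [two _ _ (j + 6, false) (j, true) (by clear * -; revert j; decide)] at k1
    rw [two _ _ (j + 2, false) (j, true) (by clear * -; revert j; decide)] at k2
    rw [two _ _ (j, false) (j, true) (by clear * -; revert j; decide)] at k3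
    have k1' : ‖a2 (j + 6) + P (j, true) j (j + 2)‖ < 111 / 2500 := by
      simp only [a2, i1, i2]; exact k1
    have k2' : ‖a1 (j + 2) + P (j, true) (j + 2) (j + 3)‖ < 111 / 2500 := by
      simp only [a1, i3]; exact k2
    have k3' : ‖a3 j + P (j, true) (j + 3) j‖ < 111 / 2500 := k3
    have : z j - 1 = -((a2 (j + 6) + P (j, true) j (j + 2)) * a1 (j + 2) * a3 j) +
        P (j, true) j (j + 2) * (a1 (j + 2) + P (j, true) (j + 2) (j + 3)) * a3 j +
        -(P (j, true) j (j + 2) * P (j, true) (j + 2) (j + 3) *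
          (a3 j + P (j, true) (j + 3) j)) := by
      simp only [z]; linear_combination c
    rw [this]
    refine norm_add₃_le.trans ?_
    simp only [norm_neg, norm_mul, n1, n3, m1, m2, mul_one, one_mul]
    linarith
  have hp : ∏ j, z j = -1 := by
    simp only [z]
    have q2 : ∏ x, a2 (x + 6) = ∏ x, a2 x := Equiv.prod_comp (Equiv.addRight 6) a2
    have q1 : ∏ x, a1 (x + 2) = ∏ x, a1 x := Equiv.prod_comp (Equiv.addRight 2) a1
    rw [prod_neg, prod_mul_distrib, prod_mul_distrib, q2, q1, mul_comm (∏ j, a2 j), ← prod_mul_distrib,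
      ← prod_mul_distrib, prod_eq_one fun j _ => hT _ _ _ _ (by clear * -; revert j; decide)]
    norm_num
  have h1 := prod_sub z (fun j => by simp [z, n1, n2, n3]) univ
  have h2 := sum_le_card_nsmul univ _ _ fun j _ => hz j
  rw [hp] at h1
  norm_num at h1 h2
  linarith

def sg (x : Fin 14) (t : Fin 14 × Bool) : ℤ :=
  if t.2 then (if x = t.1 then (-1) ^ t.1.1 else if x = t.1 + 3 then -1 else 1)
  else (if x = t.1 + 3 then (-1) ^ t.1.1 else 1)

def s0 : Vt 14 → Vt 14 → ℂ
  | .inl x, .inr t => sg x t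
  | .inr t, .inl x => sg x t
  | _, _ => 1

theorem s0_pot : IsPot (T 14) s0 := by
  have h : ∀ x t, sg x t = 1 ∨ sg x t = -1 := by decide +kernel
  rintro (x | t) (y | u) hxy
  · exact hxy.elim
  · rcases h x u with h | h <;> simp [s0, h]
  · rcases h y t with h | h <;> simp [s0, h]
  · exact hxy.elim

theorem s0_orth (x z : Fin 14) (h : x ≠ z) : SS s0 x z = 0 := by
  have key : ∀ x z : Fin 14, x ≠ z →
      ∑ t, (if inc x t then sg x t else 0) * (if inc z t then sg z t else 0) = 0 := by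
    decide +kernel
  have := congrArg (Int.cast : ℤ → ℂ) (key x z h)
  push_cast at this
  rw [← this, SS]
  refine Finset.sum_congr rfl fun t _ => ?_
  simp only [bb, s0]
  split_ifs <;> simp

def md (x : Fin 14) : Fin 7 := ⟨x.1 % 7, Nat.mod_lt _ (by decide)⟩

def pr : Vt 14 → Vt 7 := Sum.map md (Prod.map md id)

theorem result : ∃ (V W : Type) (_ : Fintype V) (_ : Fintype W) (G : SimpleGraph V)
    (H : SimpleGraph W) (p : W → V), IsLift H G p ∧ nu G < nu H := by
  have d7 : Deg 7 := by unfold Deg; decide +kernel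
  have d14 : Deg 14 := by unfold Deg; decide +kernel
  refine ⟨Vt 7, Vt 14, inferInstance, inferInstance, T 7, T 14, pr, ?_, ?_⟩
  · have h1 : ∀ x y, (T 14).Adj x y → (T 7).Adj (pr x) (pr y) := by decide +kernel
    have h2 : ∀ x y, (T 14).Adj x y → ∀ z, (T 14).Adj x z → pr y = pr z → y = z := by
      decide +kernel
    have h3 : ∀ x w, (T 7).Adj (pr x) w → ∃ y, (T 14).Adj x y ∧ pr y = w := by decide +kernel
    exact ⟨h1, by decide +kernel, fun x =>
      ⟨fun y hy => h1 x y hy, fun y hy z hz h => h2 x y hy z hz h, fun w hw => h3 x w hw⟩⟩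
  have up : ∀ σ, IsPot (T 14) σ → ∃ μ ∈ Eig (T 14) σ, μ ≤ 6 := by
    intro σ hσ
    refine test _ σ hσ 6 (Pi.single (.inl 0) 1) (by simp) ?_
    rw [Finset.sum_eq_single (.inl 0) (fun v _ hv => by simp [hv]) (by simp), lap_l d14]
    simp
  have h1 : nu (T 7) ≤ 81 / 50 := by
    refine Real.sSup_le ?_ (by norm_num)
    rintro _ ⟨σ, hσ, rfl⟩
    obtain ⟨x, y, h, h'⟩ := big hσ
    exact lam1_le (by norm_num) (upper d7 hσ x y h h')
  have h2 : 13 / 8 ≤ nu (T 14) := by
    refine le_csSup_of_le ⟨6, ?_⟩ ⟨s0, s0_pot, rfl⟩ ?_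
    · rintro _ ⟨σ, hσ, rfl⟩
      exact lam1_le (by norm_num) (up σ hσ)
    · obtain ⟨μ, h, -⟩ := up s0 s0_pot
      exact le_csInf ⟨μ, h⟩ fun b hb => lower d14 s0_pot s0_orth hb
  linarith

end Pool.Agent.Results.MP_cbccc2_co.Torus
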